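import Mathlib
import Pool.Agent.Helper584.KS.P_main_enn

set_option autoImplicit false
open MeasureTheory

namespace Pool.Agent.Results.MP_f5910f_gt.LinearConstant

/-- For all origin-symmetric convex bodies `K`, `T` in `ℝⁿ`,
`|K ∩ T| |K° ∩ T| ≤ (1 + √(2πn))² |B ∩ T|²`. -/
theorem result (n : ℕ) (K T : Set (EuclideanSpace ℝ (Fin n)))
    (hK : Convex ℝ K) (hKc : IsCompact K) (hKi : (interior K).Nonempty) (hKs : ∀ x ∈ K, -x ∈ K)
    (hT : Convex ℝ T) (hTc : IsCompact T) (hTi : (interior T).Nonempty) (hTs : ∀ x ∈ T, -x ∈ T) :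
    volume (K ∩ T) * volume ({y : EuclideanSpace ℝ (Fin n) | ∀ x ∈ K, inner ℝ x y ≤ (1 : ℝ)} ∩ T)
      ≤ ENNReal.ofReal ((1 + Real.sqrt (2 * Real.pi * n)) ^ 2) *
        volume (Metric.closedBall (0 : EuclideanSpace ℝ (Fin n)) 1 ∩ T) ^ 2 :=
  Pool.Agent.Helper584.KS.main_enn n K T hK hKc hKi hKs hT hTc hTi hTs

end Pool.Agent.Results.MP_f5910f_gt.LinearConstant
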